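import Pool.Agent.NDR.StmtsG

/-!
# Squad NDR, block G, row DEV: derivations of the coefficients
-/

set_option autoImplicit false

namespace Pool.Agent.NDR.H30D

open TrivSqZeroExt Pool.Agent.NDR

/-- a derivation of a domain extends to its field of fractions (as in `Helper64_RS/DER.lean`) -/
theorem der_aux (k B K : Type) [Field k] [CommRing B] [IsDomain B] [Algebra k B] [Field K]
    [Algebra B K] [IsFractionRing B K] (D : Derivation k B B) : ∃ D' : K →+ K,
    (∀ b, D' (algebraMap B K b) = algebraMap B K (D b)) ∧
    ∀ x y, D' (x * y) = x * D' y + y * D' x := by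
  let f : B →+* TrivSqZeroExt K K :=
    { toFun := fun b => inl (algebraMap B K b) + inr (algebraMap B K (D b))
      map_one' := by
        have h : D (1 : B) = 0 := Derivation.map_one_eq_zero D
        rw [h, map_one, map_zero, inr_zero, add_zero, inl_one]
      map_zero' := by
        rw [map_zero, map_zero, map_zero, inl_zero, inr_zero, add_zero]
      map_add' := by
        intro a b
        ext
        · simp only [fst_add, fst_inl, fst_inr, map_add, add_zero]
        · simp only [snd_add, snd_inl, snd_inr, map_add, zero_add]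
      map_mul' := by
        intro a b
        ext
        · simp only [fst_add, fst_inl, fst_inr, fst_mul, map_mul, add_zero]
        · have h : D (a * b) = a * D b + b * D a := D.leibniz a b
          simp only [h, snd_add, snd_inl, snd_inr, snd_mul, fst_add, fst_inl, fst_inr, map_mul,
            map_add, zero_add, add_zero, smul_eq_mul, MulOpposite.smul_eq_mul_unop,
            MulOpposite.unop_op]
          ring }
  have hf1 : ∀ b, (f b).fst = algebraMap B K b := by
    intro b
    change (inl (algebraMap B K b) + inr (algebraMap B K (D b)) : TrivSqZeroExt K K).fst = _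
    simp only [fst_add, fst_inl, fst_inr, add_zero]
  have hf2 : ∀ b, (f b).snd = algebraMap B K (D b) := by
    intro b
    change (inl (algebraMap B K b) + inr (algebraMap B K (D b)) : TrivSqZeroExt K K).snd = _
    simp only [snd_add, snd_inl, snd_inr, zero_add]
  have hunit : ∀ y : nonZeroDivisors B, IsUnit (f y) := by
    intro y
    rw [isUnit_iff_isUnit_fst, hf1]
    exact IsLocalization.map_units K y
  let g : K →+* TrivSqZeroExt K K := IsLocalization.lift (M := nonZeroDivisors B) (S := K) hunit
  have hg : ∀ b, g (algebraMap B K b) = f b := fun b => IsLocalization.lift_eq hunit b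
  have hfst : ∀ x, (g x).fst = x := by
    intro x
    have h : ((fstHom K K K : TrivSqZeroExt K K →ₐ[K] K) : TrivSqZeroExt K K →+* K).comp g =
        RingHom.id K := by
      refine IsLocalization.ringHom_ext (nonZeroDivisors B) ?_
      ext b
      change (g (algebraMap B K b)).fst = algebraMap B K b
      rw [hg, hf1]
    exact DFunLike.congr_fun h x
  refine ⟨{ toFun := fun x => (g x).snd, map_zero' := ?_, map_add' := ?_ }, ?_, ?_⟩
  · rw [map_zero, snd_zero]
  · intro x y
    rw [map_add, snd_add]
  · intro b
    change (g (algebraMap B K b)).snd = algebraMap B K (D b)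
    rw [hg, hf2]
  · intro x y
    change (g (x * y)).snd = x * (g y).snd + y * (g x).snd
    rw [map_mul, snd_mul, hfst, hfst]
    simp [mul_comm]

variable {ι K : Type} [Field K]

/-! ## additivity of `tht` and `spz` -/

theorem tht_add (v : ι) (a b : Lr K ι) : tht v (a + b) = tht v a + tht v b := by
  unfold tht
  rw [AddMonoidAlgebra.coeff_add, ← AddMonoidAlgebra.ofCoeff_add]
  congr 1
  apply Finsupp.sum_add_index'
  · intro m
    simp
  · intro m c d
    rw [mul_add, Finsupp.single_add]

theorem tht_zero (v : ι) : tht v (0 : Lr K ι) = 0 := by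
  unfold tht
  simp

theorem tht_single (v : ι) (m : ι → ℤ) (c : K) :
    tht v (AddMonoidAlgebra.single m c : Lr K ι)
      = AddMonoidAlgebra.single m (((m v : ℤ) : K) * c) := by
  unfold tht
  rw [AddMonoidAlgebra.coeff_single, Finsupp.sum_single_index (by simp)]
  rfl

theorem spz_add {K' : Type} [Field K'] [Algebra K K'] [DecidableEq ι] (r : ι) (t : K')
    (a b : Lr K ι) : spz r t (a + b) = spz r t a + spz r t b := by
  unfold spz
  rw [AddMonoidAlgebra.coeff_add, ← AddMonoidAlgebra.ofCoeff_add]
  congr 1
  apply Finsupp.sum_add_index'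
  · intro m
    simp
  · intro m c d
    rw [map_add, mul_add, Finsupp.single_add]

theorem spz_zero {K' : Type} [Field K'] [Algebra K K'] [DecidableEq ι] (r : ι) (t : K') :
    spz r t (0 : Lr K ι) = 0 := by
  unfold spz
  simp

theorem spz_single {K' : Type} [Field K'] [Algebra K K'] [DecidableEq ι] (r : ι) (t : K')
    (m : ι → ℤ) (c : K) :
    spz r t (AddMonoidAlgebra.single m c : Lr K ι)
      = AddMonoidAlgebra.single (Function.update m r 0) (t ^ (m r) * algebraMap K K' c) := by
  unfold spz
  rw [AddMonoidAlgebra.coeff_single, Finsupp.sum_single_index (by simp)]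
  rfl

theorem tht_sum {α : Type} (v : ι) (s : Finset α) (f : α → Lr K ι) :
    tht v (∑ a ∈ s, f a) = ∑ a ∈ s, tht v (f a) := by
  classical
  induction s using Finset.induction_on with
  | empty => simp [tht_zero]
  | insert a s ha ih => rw [Finset.sum_insert ha, Finset.sum_insert ha, tht_add, ih]

theorem spz_sum {α : Type} {K' : Type} [Field K'] [Algebra K K'] [DecidableEq ι] (r : ι) (t : K')
    (s : Finset α) (f : α → Lr K ι) :
    spz r t (∑ a ∈ s, f a) = ∑ a ∈ s, spz r t (f a) := by
  classical
  induction s using Finset.induction_on with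
  | empty => simp [spz_zero]
  | insert a s ha ih => rw [Finset.sum_insert ha, Finset.sum_insert ha, spz_add, ih]

theorem eq_sum (h : Lr K ι) :
    h = ∑ m ∈ h.coeff.support, (AddMonoidAlgebra.single m (h.coeff m) : Lr K ι) := by
  conv_lhs => rw [← AddMonoidAlgebra.sum_coeff_single h]
  rfl

/-! ## additivity of `cfD` -/

theorem coeff_cfD {σ : Type} (δ : Derivation ℤ K K) (G : MvPolynomial σ K) (α : σ →₀ ℕ) :
    MvPolynomial.coeff α (cfD δ G) = δ (MvPolynomial.coeff α G) := by
  classical
  unfold cfD
  rw [MvPolynomial.coeff_sum]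
  simp only [MvPolynomial.coeff_monomial]
  rw [Finset.sum_ite_eq' G.support α]
  split_ifs with h
  · rfl
  · rw [MvPolynomial.notMem_support_iff.mp h, map_zero]

theorem cfD_sum {σ α : Type} (δ : Derivation ℤ K K) (s : Finset α) (f : α → MvPolynomial σ K) :
    cfD δ (∑ a ∈ s, f a) = ∑ a ∈ s, cfD δ (f a) := by
  ext β
  rw [coeff_cfD, MvPolynomial.coeff_sum, MvPolynomial.coeff_sum, map_sum]
  exact Finset.sum_congr rfl fun a _ => (coeff_cfD δ _ β).symm

theorem cfD_monomial {σ : Type} (δ : Derivation ℤ K K) (α : σ →₀ ℕ) (c : K) :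
    cfD δ (MvPolynomial.monomial α c) = MvPolynomial.monomial α (δ c) := by
  classical
  ext β
  rw [coeff_cfD, MvPolynomial.coeff_monomial, MvPolynomial.coeff_monomial]
  split_ifs
  · rfl
  · exact map_zero δ

/-! ## from polynomials to Laurent polynomials -/

/-- exponents in `ℕ` as exponents in `ℤ` -/
def nz (α : ι →₀ ℕ) : ι → ℤ := fun i => ((α i : ℕ) : ℤ)

/-- polynomials as Laurent polynomials -/
noncomputable def Ph (K ι : Type) [Field K] [DecidableEq ι] : MvPolynomial ι K →ₐ[K] Lr K ι :=
  MvPolynomial.aeval fun i => AddMonoidAlgebra.single (Pi.single i 1) 1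

theorem Ph_monomial [Fintype ι] [DecidableEq ι] (α : ι →₀ ℕ) (c : K) :
    Ph K ι (MvPolynomial.monomial α c) = AddMonoidAlgebra.single (nz α) c := by
  unfold Ph
  rw [MvPolynomial.aeval_monomial]
  have h1 : ∀ s : Finset ι, (∏ i ∈ s, (AddMonoidAlgebra.single (Pi.single i (1 : ℤ)) (1 : K) :
      Lr K ι) ^ (α i)) = AddMonoidAlgebra.single (fun i => if i ∈ s then ((α i : ℕ) : ℤ) else 0)
        1 := by
    intro s
    induction s using Finset.induction_on with
    | empty =>
      rw [Finset.prod_empty, AddMonoidAlgebra.one_def]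
      congr 1
    | insert a s ha ih =>
      rw [Finset.prod_insert ha, ih, AddMonoidAlgebra.single_pow,
        AddMonoidAlgebra.single_mul_single, one_pow, one_mul]
      congr 1
      funext i
      by_cases hi : i = a
      · subst hi
        simp [ha]
      · simp [hi]
  rw [Finsupp.prod_fintype _ _ (fun i => pow_zero _), h1 Finset.univ]
  have h2 : (algebraMap K (Lr K ι)) c = AddMonoidAlgebra.single 0 c := rfl
  rw [h2, AddMonoidAlgebra.single_mul_single, zero_add, mul_one]
  congr 1
  funext i
  simp [nz]

theorem Ph_pderiv [Fintype ι] [DecidableEq ι] (l : ι) (p : MvPolynomial ι K) :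
    Ph K ι (MvPolynomial.X l * MvPolynomial.pderiv l p) = tht l (Ph K ι p) := by
  induction p using MvPolynomial.induction_on' with
  | monomial α c =>
    rw [MvPolynomial.X_mul_pderiv_monomial, map_nsmul, Ph_monomial, tht_single,
      AddMonoidAlgebra.smul_single, nsmul_eq_mul]
    congr 1
    simp [nz]
  | add p q hp hq => rw [map_add, mul_add, map_add, map_add, hp, hq, tht_add]

theorem tht_mul_single (l : ι) (N : ι → ℤ) (h : Lr K ι) :
    tht l (AddMonoidAlgebra.single N 1 * h)
      = AddMonoidAlgebra.single N 1 * (cst ι ((N l : ℤ) : K) * h + tht l h) := by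
  induction h using AddMonoidAlgebra.induction_linear with
  | zero => simp [tht_zero]
  | add a b ha hb =>
    rw [mul_add, tht_add, ha, hb, tht_add]
    ring
  | single m c =>
    unfold cst
    rw [AddMonoidAlgebra.single_mul_single, tht_single, tht_single,
      AddMonoidAlgebra.single_mul_single, zero_add, ← AddMonoidAlgebra.single_add,
      AddMonoidAlgebra.single_mul_single]
    congr 1
    push_cast [Pi.add_apply]
    ring

/-- the derivation `X d/dX` of the field of fractions of `K[X]` -/
theorem exists_der (K F : Type) [Field K] [Field F] [Algebra (Polynomial K) F]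
    [IsFractionRing (Polynomial K) F] [Algebra K F] [IsScalarTower K (Polynomial K) F] :
    ∃ δ : Derivation ℤ F F,
      (∀ c : K, δ (algebraMap K F c) = 0) ∧
      ∀ k : ℤ, δ ((algebraMap (Polynomial K) F Polynomial.X) ^ k)
        = ((k : ℤ) : F) *
          (algebraMap (Polynomial K) F Polynomial.X) ^ k := by
  obtain ⟨D', h1, h2⟩ := der_aux K (Polynomial K) F
    ((Polynomial.X : Polynomial K) • (Polynomial.derivative' : Derivation K (Polynomial K) _))
  have hX : (algebraMap (Polynomial K) F Polynomial.X) ≠ 0 := by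
    intro h
    rw [IsFractionRing.to_map_eq_zero_iff] at h
    exact Polynomial.X_ne_zero h
  let δ : Derivation ℤ F F :=
    Derivation.mk' D'.toIntLinearMap (fun a b => by
      change D' (a * b) = a * D' b + b * D' a
      exact h2 a b)
  have hδ : ∀ x, δ x = D' x := fun x => rfl
  have hδX : δ (algebraMap (Polynomial K) F Polynomial.X)
      = algebraMap (Polynomial K) F Polynomial.X := by
    rw [hδ, h1]
    congr 1
    rw [Derivation.smul_apply]
    change Polynomial.X • (Polynomial.derivative Polynomial.X) = Polynomial.X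
    rw [Polynomial.derivative_X, smul_eq_mul, mul_one]
  refine ⟨δ, ?_, ?_⟩
  · intro c
    rw [hδ, IsScalarTower.algebraMap_apply K (Polynomial K) F, h1]
    have : ((Polynomial.X : Polynomial K) •
        (Polynomial.derivative' : Derivation K (Polynomial K) _)) (algebraMap K _ c) = 0 :=
      Derivation.map_algebraMap _ c
    rw [this, map_zero]
  · intro k
    rw [Derivation.leibniz_zpow, hδX, zsmul_eq_mul, smul_eq_mul, ← zpow_add_one₀ hX,
      sub_add_cancel]

theorem dev_gen (hcid : CidStmt) (ι K F : Type) [Fintype ι] [DecidableEq ι] [Field K] [Field F]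
    [CharZero F] [Algebra (Polynomial K) F] [IsFractionRing (Polynomial K) F] [Algebra K F]
    [IsScalarTower K (Polynomial K) F] (r : ι) (g : Lr K ι) (𝔞 : Ideal (Lr F ι))
    (hg : spz r (algebraMap (Polynomial K) F Polynomial.X) g ∈ 𝔞)
    (hth : ∀ i, i ≠ r → tht i (spz r (algebraMap (Polynomial K) F Polynomial.X) g) ∈ 𝔞) :
    ∃ n : ℕ, spz r (algebraMap (Polynomial K) F Polynomial.X) (tht r g) ^ n ∈ 𝔞 := by
  obtain ⟨δ, hδ0, hδk⟩ := exists_der K F
  set t : F :=
    algebraMap (Polynomial K) F Polynomial.X with ht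
  set S := g.coeff.support with hS
  let n : ι → ℕ := fun i => ∑ m ∈ S, (m i).natAbs
  let N : ι → ℤ := fun i => ((n i : ℕ) : ℤ)
  let e : (ι → ℤ) → (ι →₀ ℕ) := fun m =>
    Finsupp.equivFunOnFinite.symm fun i => (Function.update m r 0 i + N i).toNat
  have he : ∀ m ∈ S, nz (e m) = N + Function.update m r 0 := by
    intro m hm
    funext i
    change (((Function.update m r 0 i + N i).toNat : ℕ) : ℤ) = N i + Function.update m r 0 i
    have h1 : (m i).natAbs ≤ n i :=
      Finset.single_le_sum (f := fun m : ι → ℤ => (m i).natAbs) (fun _ _ => Nat.zero_le _) hm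
    have h2 : 0 ≤ Function.update m r 0 i + N i := by
      by_cases hi : i = r
      · subst hi
        simp [N]
      · rw [Function.update_of_ne hi]
        have h3 : -(((m i).natAbs : ℕ) : ℤ) ≤ m i := by omega
        have h4 : (((m i).natAbs : ℕ) : ℤ) ≤ ((n i : ℕ) : ℤ) := Int.ofNat_le.mpr h1
        change 0 ≤ m i + ((n i : ℕ) : ℤ)
        linarith
    rw [Int.toNat_of_nonneg h2]
    ring
  let G : MvPolynomial ι F :=
    ∑ m ∈ S, MvPolynomial.monomial (e m) (t ^ (m r) * algebraMap K _ (g.coeff m))
  let u : Lr F ι := AddMonoidAlgebra.single N 1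
  let u' : Lr F ι := AddMonoidAlgebra.single (-N) 1
  have huu : u' * u = 1 := by
    change AddMonoidAlgebra.single (-N) 1 * AddMonoidAlgebra.single N 1 = _
    rw [AddMonoidAlgebra.single_mul_single, neg_add_cancel, mul_one]
    rfl
  have hgs : spz r t g = ∑ m ∈ S, AddMonoidAlgebra.single (Function.update m r 0)
      (t ^ (m r) * algebraMap K _ (g.coeff m)) := by
    conv_lhs => rw [eq_sum g]
    rw [spz_sum]
    exact Finset.sum_congr rfl fun m _ => spz_single r t m _
  have hPG : Ph _ ι G = u * spz r t g := by
    rw [hgs, Finset.mul_sum, map_sum]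
    refine Finset.sum_congr rfl fun m hm => ?_
    rw [Ph_monomial, he m hm]
    change _ = AddMonoidAlgebra.single N 1 * AddMonoidAlgebra.single _ _
    rw [AddMonoidAlgebra.single_mul_single, one_mul]
  have hts : spz r t (tht r g) = ∑ m ∈ S, AddMonoidAlgebra.single (Function.update m r 0)
      (δ (t ^ (m r) * algebraMap K _ (g.coeff m))) := by
    conv_lhs => rw [eq_sum g]
    rw [tht_sum, spz_sum]
    refine Finset.sum_congr rfl fun m _ => ?_
    rw [tht_single, spz_single, Derivation.leibniz, hδ0, smul_zero, zero_add, hδk, smul_eq_mul]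
    congr 1
    rw [map_mul, map_intCast]
    ring
  have hPD : Ph _ ι (cfD δ G) = u * spz r t (tht r g) := by
    rw [hts, Finset.mul_sum, cfD_sum, map_sum]
    refine Finset.sum_congr rfl fun m hm => ?_
    rw [cfD_monomial, Ph_monomial, he m hm]
    change _ = AddMonoidAlgebra.single N 1 * AddMonoidAlgebra.single _ _
    rw [AddMonoidAlgebra.single_mul_single, one_mul]
  have hr0 : tht r (spz r t g) = 0 := by
    rw [hgs, tht_sum]
    refine Finset.sum_eq_zero fun m _ => ?_
    rw [tht_single, Function.update_self]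
    simp
  have hth' : ∀ l, tht l (spz r t g) ∈ 𝔞 := by
    intro l
    by_cases hl : l = r
    · rw [hl, hr0]
      exact 𝔞.zero_mem
    · exact hth l hl
  have hGl : ∀ l, Ph _ ι (MvPolynomial.pderiv l G) ∈ 𝔞 := by
    intro l
    have h1 : Ph _ ι (MvPolynomial.X l * MvPolynomial.pderiv l G) ∈ 𝔞 := by
      rw [Ph_pderiv, hPG]
      change tht l (AddMonoidAlgebra.single N 1 * spz r t g) ∈ 𝔞
      rw [tht_mul_single]
      exact 𝔞.mul_mem_left _ (𝔞.add_mem (𝔞.mul_mem_left _ hg) (hth' l))
    have h2 : Ph _ ι (MvPolynomial.pderiv l G) =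
        AddMonoidAlgebra.single (-(Pi.single l 1)) 1 *
          Ph _ ι (MvPolynomial.X l * MvPolynomial.pderiv l G) := by
      have h3 : Ph F ι (MvPolynomial.X l)
          = AddMonoidAlgebra.single (Pi.single l 1) 1 := by
        unfold Ph
        rw [MvPolynomial.aeval_X]
      rw [map_mul, h3, ← mul_assoc, AddMonoidAlgebra.single_mul_single, neg_add_cancel, mul_one]
      change _ = (1 : Lr F ι) * _
      rw [one_mul]
    rw [h2]
    exact 𝔞.mul_mem_left _ h1
  obtain ⟨k, hk⟩ := hcid ι F δ G
  have h5 : Ideal.span ({G} ∪ Set.range fun l => MvPolynomial.pderiv l G) ≤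
      𝔞.comap (Ph F ι) := by
    rw [Ideal.span_le]
    rintro x (hx | ⟨l, rfl⟩)
    · rw [Set.mem_singleton_iff] at hx
      subst hx
      change Ph _ ι G ∈ 𝔞
      rw [hPG]
      exact 𝔞.mul_mem_left _ hg
    · exact hGl l
  have h6 : (u * spz r t (tht r g)) ^ k ∈ 𝔞 := by
    have := h5 hk
    rw [Ideal.mem_comap, map_pow, hPD] at this
    exact this
  refine ⟨k, ?_⟩
  have h7 : spz r t (tht r g) ^ k = u' ^ k * (u * spz r t (tht r g)) ^ k := by
    rw [← mul_pow, ← mul_assoc, huu, one_mul]
  rw [h7]
  exact 𝔞.mul_mem_left _ h6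

/-- **DEV** -/
theorem dev_aux : CidStmt → DevStmt := fun hcid ι K _ _ _ _ r g 𝔞 hg hth =>
  dev_gen hcid ι K (FractionRing (Polynomial K)) r g 𝔞 hg hth

/-- **DEV** -/
theorem dev : CidStmt → SphStmt → DevStmt := fun hcid _ => dev_aux hcid

end Pool.Agent.NDR.H30D

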